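import Pool.Agent.Helper11.CK.MData
import Pool.Agent.Helper71.CK.C1.Data

/-!
# Project CK: the multiplier of the certificate C1 satisfies `MOk`
-/

set_option autoImplicit false

open Complex

namespace Pool.Agent.Helper11.CK.C1

open Pool.Agent.Helper71.CK
open Pool.Agent.Helper71.CK.C1 (g ct cm cb)
open Pool.Agent.Helper69.CK (MOk)
open Pool.Agent.Helper20.CK (ROk)
open Pool.Agent.Helper20.EK7 (InL OutL)

/-- the numbers of the check: the bound is `5 / 2` -/
def ck : MChk := ⟨256, 16, 2, 256, 20, 2, 5, 2, 3, 3, 0, -1, 2, 1, 0, 1⟩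

theorem ck_ok : ck.ok g.s = true := by decide +kernel

/-- **the multiplier of C1** -/
theorem mok {Mb : ℝ} (hMb : 5 / 2 < Mb) : ∃ (M' : ℂ → ℂ) (L' ε : ℝ), 0 < ε ∧
    MOk (g.s.Mu (1) (0) (-1 / 3) (1 / 2) (0) (1 / 2)) M' Mb L' ε := by
  have hp : InL (1) (0) (-1 / 3) := by constructor <;> norm_num
  have hq : OutL (1 / 2) (1 / 2) (0) (1 / 2) := by constructor <;> norm_num
  have hM : 0 < g.s.d.c.M := by decide +kernel
  have hr : ROk ck.r ck.r0 ck.r1 ck.r2 (1) (0) (-1 / 3) := by
    constructor <;> simp only [ck] <;> norm_num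
  have hr' : ROk ck.s ck.s0 ck.s1 ck.s2 (1 / 2) (0) (1 / 2) := by
    constructor <;> simp only [ck] <;> norm_num
  exact mOk_Mu hp hq hM ck (by simp only [ck]; norm_num) (by simp only [ck]; norm_num) hr hr'
    ck_ok (by simp only [ck]; norm_num; exact hMb)

end Pool.Agent.Helper11.CK.C1
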