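import Pool.Agent.Helper20.CK.MBound
import Pool.Agent.Helper20.EK7.Prj
import Pool.Agent.Helper69.CK.Frame
import Pool.Agent.Helper71.CK.DatG

/-!
# Project CK: the multiplier of the data satisfies `MOk`

`Mq` is piecewise `∑ c lⁿ (conj m)^j / M₀`; the two pieces are bounded and Lipschitz on discs and
agree on the unit circle when the coefficients of `l⁰` are the same (`shr`). With the retraction on
the disc `|m + 3| ≤ 4 + ε` this gives `MOk` with every bound larger than the one of `Mq_le`.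
-/

set_option autoImplicit false

open Complex Metric Set
open scoped ComplexConjugate

namespace Pool.Agent.Helper11.CK

open Pool.Agent.Helper71.CK (MS Mq scl DatT DatG)
open Pool.Agent.Helper69.EK3 (rF rF_eq)
open Pool.Agent.Helper69.CK (MOk)
open Pool.Agent.Helper20.EK7 (InL OutL prj prj_lip prj_of_le norm_prj_le)
open Pool.Agent.Helper20.CK (mchk ROk Mq_le sj MS_sj)

/-! ### bounded Lipschitz functions -/

/-- bounded and Lipschitz on `S` -/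
def BL (S : Set ℂ) (f : ℂ → ℂ) : Prop :=
  ∃ B L : ℝ, 0 ≤ B ∧ 0 ≤ L ∧ (∀ m ∈ S, ‖f m‖ ≤ B) ∧
    ∀ m ∈ S, ∀ m' ∈ S, ‖f m - f m'‖ ≤ L * ‖m - m'‖

section BL
variable {S : Set ℂ} {f g : ℂ → ℂ}

theorem BL.const (S : Set ℂ) (c : ℂ) : BL S fun _ => c :=
  ⟨‖c‖, 0, norm_nonneg _, le_rfl, fun _ _ => le_rfl, fun _ _ _ _ => by simp⟩

theorem BL.add (hf : BL S f) (hg : BL S g) : BL S fun m => f m + g m := by
  obtain ⟨B, L, hB, hL, h1, h2⟩ := hf
  obtain ⟨B', L', hB', hL', h1', h2'⟩ := hg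
  refine ⟨B + B', L + L', by positivity, by positivity, fun m hm =>
    (norm_add_le _ _).trans (add_le_add (h1 m hm) (h1' m hm)), fun m hm m' hm' => ?_⟩
  have e : f m + g m - (f m' + g m') = (f m - f m') + (g m - g m') := by ring
  rw [e, add_mul]
  exact (norm_add_le _ _).trans (add_le_add (h2 m hm m' hm') (h2' m hm m' hm'))

theorem BL.mul (hf : BL S f) (hg : BL S g) : BL S fun m => f m * g m := by
  obtain ⟨B, L, hB, hL, h1, h2⟩ := hf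
  obtain ⟨B', L', hB', hL', h1', h2'⟩ := hg
  refine ⟨B * B', B * L' + L * B', by positivity, by positivity, fun m hm => ?_,
    fun m hm m' hm' => ?_⟩
  · rw [norm_mul]
    exact mul_le_mul (h1 m hm) (h1' m hm) (norm_nonneg _) hB
  · have e : f m * g m - f m' * g m' = f m * (g m - g m') + (f m - f m') * g m' := by ring
    rw [e, add_mul]
    refine (norm_add_le _ _).trans (add_le_add ?_ ?_)
    · rw [norm_mul, mul_assoc]
      exact mul_le_mul (h1 m hm) (h2' m hm m' hm') (norm_nonneg _) hB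
    · rw [norm_mul]
      have h3 := mul_le_mul (h2 m hm m' hm') (h1' m' hm') (norm_nonneg _)
        (mul_nonneg hL (norm_nonneg _))
      calc _ ≤ _ := h3
        _ = _ := by ring

theorem BL.inv (hf : BL S f) {c : ℝ} (hc : 0 < c) (h : ∀ m ∈ S, c ≤ ‖f m‖) :
    BL S fun m => (f m)⁻¹ := by
  obtain ⟨B, L, hB, hL, h1, h2⟩ := hf
  have h3 : ∀ m ∈ S, ‖(f m)⁻¹‖ ≤ c⁻¹ := fun m hm => by
    rw [norm_inv]
    exact inv_anti₀ hc (h m hm)
  refine ⟨c⁻¹, c⁻¹ * L * c⁻¹, by positivity, by positivity, h3, fun m hm m' hm' => ?_⟩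
  have n1 : f m ≠ 0 := norm_pos_iff.1 (hc.trans_le (h m hm))
  have n2 : f m' ≠ 0 := norm_pos_iff.1 (hc.trans_le (h m' hm'))
  have e : (f m)⁻¹ - (f m')⁻¹ = (f m)⁻¹ * (f m' - f m) * (f m')⁻¹ := by
    field_simp
  rw [e, norm_mul, norm_mul, norm_sub_rev]
  have h4 := mul_le_mul (h3 m hm) (h2 m hm m' hm') (norm_nonneg _) (inv_nonneg.2 hc.le)
  have h5 := mul_le_mul h4 (h3 m' hm') (norm_nonneg _)
    (mul_nonneg (inv_nonneg.2 hc.le) (mul_nonneg hL (norm_nonneg _)))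
  calc _ ≤ _ := h5
    _ = _ := by ring

theorem BL.pow (hf : BL S f) (n : ℕ) : BL S fun m => f m ^ n := by
  induction n with
  | zero => simpa using BL.const S 1
  | succ n ih => simpa [pow_succ] using ih.mul hf

theorem BL.congr (hf : BL S f) (h : ∀ m, g m = f m) : BL S g := by
  have : g = f := funext h
  rwa [this]

theorem BL.id {R : ℝ} (hR : 0 ≤ R) (hS : ∀ m ∈ S, ‖m‖ ≤ R) : BL S fun m => m :=
  ⟨R, 1, hR, zero_le_one, hS, fun m _ m' _ => by rw [one_mul]⟩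

theorem BL.cj {R : ℝ} (hR : 0 ≤ R) (hS : ∀ m ∈ S, ‖m‖ ≤ R) : BL S fun m => conj m :=
  ⟨R, 1, hR, zero_le_one, fun m hm => by rw [norm_conj]; exact hS m hm,
    fun m _ m' _ => by rw [one_mul, ← map_sub, norm_conj]⟩

theorem BL.contOn (hf : BL S f) : ContinuousOn f S := by
  obtain ⟨B, L, hB, hL, h1, h2⟩ := hf
  have h : LipschitzOnWith (Real.toNNReal L) f S := by
    refine LipschitzOnWith.of_dist_le_mul fun m hm m' hm' => ?_
    rw [dist_eq_norm, dist_eq_norm, Real.coe_toNNReal _ hL]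
    exact h2 m hm m' hm'
  exact h.continuousOn

end BL

/-! ### the pieces -/

section piece
variable {S : Set ℂ} {R : ℝ} (hR : 0 ≤ R) (hS : ∀ m ∈ S, ‖m‖ ≤ R)
include hR hS

theorem bl_sq : BL S fun m => ((‖m‖ ^ 2 : ℝ) : ℂ) :=
  ((BL.id hR hS).mul (BL.cj hR hS)).congr fun m => by
    rw [mul_conj']
    push_cast
    rfl

theorem bl_rF (p0 p1 p2 : ℝ) : BL S fun m => ((rF p0 p1 p2 m : ℝ) : ℂ) := by
  have h1 := ((BL.const S ((p0 + p1 : ℝ) : ℂ)).add ((BL.const S ((p1 : ℝ) : ℂ)).mul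
    ((BL.id hR hS).add (BL.cj hR hS)))).add ((BL.const S ((p1 + p2 : ℝ) : ℂ)).mul (bl_sq hR hS))
  refine h1.congr fun m => ?_
  have e : m + conj m = ((2 * m.re : ℝ) : ℂ) := add_conj m
  rw [rF_eq, e]
  push_cast
  ring

theorem bl_l (s : ℝ) {p0 p1 p2 c : ℝ} (hc : 0 < c) (hl : ∀ m ∈ S, c ≤ rF p0 p1 p2 m) :
    BL S fun m => (((s * (1 - ‖m‖ ^ 2)) / rF p0 p1 p2 m : ℝ) : ℂ) := by
  have h1 := ((BL.const S ((s : ℝ) : ℂ)).mul ((BL.const S 1).add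
    ((BL.const S (-1)).mul (bl_sq hR hS)))).mul ((bl_rF hR hS p0 p1 p2).inv hc fun m hm => by
      rw [Complex.norm_real, Real.norm_eq_abs]
      exact (hl m hm).trans (le_abs_self _))
  refine h1.congr fun m => ?_
  push_cast
  ring

theorem bl_MS (L : List (ℕ × ℕ × ℤ)) {l : ℂ → ℝ} (hl : BL S fun m => ((l m : ℝ) : ℂ)) :
    BL S fun m => MS L (l m) m := by
  unfold MS
  induction L with
  | nil => simpa using BL.const S 0
  | cons t L ih =>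
    simp only [List.map_cons, List.sum_cons]
    exact ((BL.const S (t.2.2 : ℂ)).mul ((hl.pow t.1).mul ((BL.cj hR hS).pow t.2.1))).add ih

end piece

/-! ### gluing -/

theorem seg_point {m m' : ℂ} (h : ‖m‖ ≤ 1) (h' : 1 < ‖m'‖) : ∃ p : ℂ, ‖p‖ = 1 ∧
    ‖m - p‖ + ‖p - m'‖ = ‖m - m'‖ := by
  have hc : ContinuousOn (fun t : ℝ => ‖m + (t : ℂ) * (m' - m)‖) (Icc 0 1) := by fun_prop
  have h1 := intermediate_value_Icc (zero_le_one (α := ℝ)) hc
  have h2 : (1 : ℝ) ∈ Icc ‖m + ((0 : ℝ) : ℂ) * (m' - m)‖ ‖m + ((1 : ℝ) : ℂ) * (m' - m)‖ := by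
    constructor
    · simpa using h
    · simpa using h'.le
  obtain ⟨t, ⟨ht0, ht1⟩, ht⟩ := h1 h2
  refine ⟨m + (t : ℂ) * (m' - m), ht, ?_⟩
  have e1 : m - (m + (t : ℂ) * (m' - m)) = ((t : ℝ) : ℂ) * (m - m') := by ring
  have e2 : m + (t : ℂ) * (m' - m) - m' = ((1 - t : ℝ) : ℂ) * (m - m') := by push_cast; ring
  rw [e1, e2, norm_mul, norm_mul, Complex.norm_real, Complex.norm_real, Real.norm_eq_abs,
    Real.norm_eq_abs, abs_of_nonneg ht0, abs_of_nonneg (by linarith)]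
  ring

theorem glue {f g : ℂ → ℂ} {R : ℝ} (hR : 1 ≤ R) (hf : BL {m | ‖m‖ ≤ 1} f)
    (hg : BL {m | ‖m‖ ≤ R} g) (h : ∀ m, ‖m‖ = 1 → f m = g m) :
    ∃ L : ℝ, 0 ≤ L ∧ ∀ m m' : ℂ, ‖m‖ ≤ R → ‖m'‖ ≤ R →
      ‖(if ‖m‖ ≤ 1 then f m else g m) - (if ‖m'‖ ≤ 1 then f m' else g m')‖ ≤ L * ‖m - m'‖ := by
  obtain ⟨B, L, hB, hL, h1, h2⟩ := hf
  obtain ⟨B', L', hB', hL', h1', h2'⟩ := hg
  have key : ∀ m m' : ℂ, ‖m‖ ≤ 1 → 1 < ‖m'‖ → ‖m'‖ ≤ R →
      ‖f m - g m'‖ ≤ max L L' * ‖m - m'‖ := by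
    intro m m' hm hm' hR'
    obtain ⟨p, hp, hs⟩ := seg_point hm hm'
    have a1 := h2 m hm p hp.le
    have a2 := h2' p (show ‖p‖ ≤ R by rw [hp]; exact hR) m' hR'
    have e : f m - g m' = (f m - f p) + (g p - g m') := by rw [h p hp]; ring
    rw [e, ← hs, mul_add]
    exact (norm_add_le _ _).trans (add_le_add
      (a1.trans (mul_le_mul_of_nonneg_right (le_max_left _ _) (norm_nonneg _)))
      (a2.trans (mul_le_mul_of_nonneg_right (le_max_right _ _) (norm_nonneg _))))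
  refine ⟨max L L', le_max_of_le_left hL, fun m m' hm hm' => ?_⟩
  split_ifs with c1 c2 c2
  · exact (h2 m c1 m' c2).trans (mul_le_mul_of_nonneg_right (le_max_left _ _) (norm_nonneg _))
  · exact key m m' c1 (not_le.1 c2) hm'
  · rw [norm_sub_rev, norm_sub_rev m m']
    exact key m' m c2 (not_le.1 c1) hm
  · exact (h2' m hm m' hm').trans
      (mul_le_mul_of_nonneg_right (le_max_right _ _) (norm_nonneg _))

/-! ### the shared columns -/

/-- the sum of the coefficients of `l⁰ (conj m)^j` -/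
def cs (j : ℕ) : List (ℕ × ℕ × ℤ) → ℤ
  | [] => 0
  | t :: L => cond (Nat.beq t.1 0 && Nat.beq t.2.1 j) (Int.add t.2.2 (cs j L)) (cs j L)

/-- the columns of `l⁰` agree, and `j ≤ 2` -/
def shr (MI MO : List (ℕ × ℕ × ℤ)) : Bool :=
  MI.all (fun t => Nat.ble t.2.1 2) && MO.all (fun t => Nat.ble t.2.1 2) &&
    (cs 0 MI == cs 0 MO) && (cs 1 MI == cs 1 MO) && (cs 2 MI == cs 2 MO)

theorem sj_zero (j : ℕ) (L : List (ℕ × ℕ × ℤ)) : sj 0 j L = cs j L := by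
  unfold sj
  induction L with
  | nil => simp [cs]
  | cons t L ih =>
    obtain ⟨n, i, c⟩ := t
    rw [List.map_cons, List.sum_cons, ih]
    have e : ∀ a b : ℤ, Int.add a b = a + b := fun _ _ => rfl
    cases n with
    | zero =>
      by_cases h : i = j
      · have hb : Nat.beq i j = true := by rw [h]; exact Nat.beq_refl j
        have h0 : Nat.beq 0 0 = true := rfl
        simp [cs, h]
      · have hb : Nat.beq i j = false := by
          rw [Bool.eq_false_iff]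
          intro h2
          exact h (Nat.eq_of_beq_eq_true h2)
        simp [cs, h, hb]
    | succ n =>
      have h0 : Nat.beq (n + 1) 0 = false := rfl
      simp [cs, h0]

theorem MS_shr {MI MO : List (ℕ × ℕ × ℤ)} (h : shr MI MO = true) (m : ℂ) :
    MS MI 0 m = MS MO 0 m := by
  simp only [shr, Bool.and_eq_true, List.all_eq_true, Nat.ble_eq, beq_iff_eq] at h
  obtain ⟨⟨⟨⟨h1, h2⟩, h3⟩, h4⟩, h5⟩ := h
  rw [MS_sj h1, MS_sj h2, sj_zero, sj_zero, sj_zero, sj_zero, sj_zero, sj_zero, h3, h4, h5]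

theorem cs_scl (td : ℤ) (j : ℕ) (L : List (ℕ × ℕ × ℤ)) : cs j (scl td L) = td * cs j L := by
  unfold scl
  induction L with
  | nil => simp [cs]
  | cons t L ih =>
    have e : ∀ a b : ℤ, Int.add a b = a + b := fun _ _ => rfl
    have e2 : ∀ a b : ℤ, Int.mul a b = a * b := fun _ _ => rfl
    rw [List.map_cons, cs, cs, ih]
    cases (Nat.beq t.1 0 && Nat.beq t.2.1 j)
    · rfl
    · simp only [cond_true, e, e2]
      ring

theorem shr_scl {MI MO : List (ℕ × ℕ × ℤ)} (td : ℤ) (h : shr MI MO = true) :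
    shr (scl td MI) (scl td MO) = true := by
  simp only [shr, Bool.and_eq_true, List.all_eq_true, Nat.ble_eq, beq_iff_eq] at h ⊢
  obtain ⟨⟨⟨⟨h1, h2⟩, h3⟩, h4⟩, h5⟩ := h
  refine ⟨⟨⟨⟨?_, ?_⟩, ?_⟩, ?_⟩, ?_⟩
  · intro t ht
    unfold scl at ht
    obtain ⟨s, hs, rfl⟩ := List.mem_map.1 ht
    exact h1 s hs
  · intro t ht
    unfold scl at ht
    obtain ⟨s, hs, rfl⟩ := List.mem_map.1 ht
    exact h2 s hs
  · rw [cs_scl, cs_scl, h3]
  · rw [cs_scl, cs_scl, h4]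
  · rw [cs_scl, cs_scl, h5]

/-! ### the multiplier -/

section Mq
variable {a p0 p1 p2 q0 q1 q2 : ℝ} {M : ℤ} {MI MO : List (ℕ × ℕ × ℤ)}

theorem bl_in (hp : InL p0 p1 p2) (M : ℤ) (MI : List (ℕ × ℕ × ℤ)) :
    BL {m | ‖m‖ ≤ 1} fun m => MS MI ((1 - ‖m‖ ^ 2) / rF p0 p1 p2 m) m / (M : ℂ) := by
  obtain ⟨c, hc, hl⟩ := hp.low
  have h1 : BL {m : ℂ | ‖m‖ ≤ 1} fun m => (((1 - ‖m‖ ^ 2) / rF p0 p1 p2 m : ℝ) : ℂ) :=
    (bl_l zero_le_one (fun m hm => hm) 1 hc fun m hm => by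
      have := hl m hm
      nlinarith [sq_nonneg ‖m‖]).congr fun m => by rw [one_mul]
  exact ((bl_MS zero_le_one (fun m hm => hm) MI h1).mul (BL.const _ ((M : ℂ)⁻¹))).congr
    fun m => div_eq_mul_inv _ _

theorem bl_out (hq : OutL a q0 q1 q2) (M : ℤ) (MO : List (ℕ × ℕ × ℤ)) {R : ℝ} (hR : 0 ≤ R) :
    BL {m | ‖m‖ ≤ R} fun m => MS MO ((‖m‖ ^ 2 - 1) / rF q0 q1 q2 m) m / (M : ℂ) := by
  obtain ⟨c, hc, hl⟩ := hq.low
  have h1 : BL {m : ℂ | ‖m‖ ≤ R} fun m => (((‖m‖ ^ 2 - 1) / rF q0 q1 q2 m : ℝ) : ℂ) :=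
    (bl_l hR (fun m hm => hm) (-1) hc fun m _ => by
      have := hl m
      nlinarith [sq_nonneg ‖m‖]).congr fun m => by
        congr 2
        ring
  exact ((bl_MS hR (fun m hm => hm) MO h1).mul (BL.const _ ((M : ℂ)⁻¹))).congr
    fun m => div_eq_mul_inv _ _

theorem circ (hsh : shr MI MO = true) (m : ℂ) (hm : ‖m‖ = 1) :
    MS MI ((1 - ‖m‖ ^ 2) / rF p0 p1 p2 m) m / (M : ℂ) =
      MS MO ((‖m‖ ^ 2 - 1) / rF q0 q1 q2 m) m / (M : ℂ) := by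
  rw [hm, one_pow, sub_self, zero_div, zero_div, MS_shr hsh]

/-- **continuity** of the multiplier -/
theorem Mq_cont (hp : InL p0 p1 p2) (hq : OutL a q0 q1 q2) (hsh : shr MI MO = true) :
    Continuous (Mq M MI MO p0 p1 p2 q0 q1 q2) := by
  unfold Mq
  refine continuous_if_le continuous_norm continuous_const (bl_in hp M MI).contOn ?_
    fun m hm => circ hsh m hm
  have h1 : Continuous fun m : ℂ => MS MO ((‖m‖ ^ 2 - 1) / rF q0 q1 q2 m) m / (M : ℂ) := by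
    rw [continuous_iff_continuousAt]
    intro m
    refine (bl_out hq M MO (R := ‖m‖ + 1) (by positivity)).contOn.continuousAt ?_
    exact Filter.mem_of_superset (ball_mem_nhds m one_pos) fun w hw => by
      have h2 : ‖w - m‖ < 1 := by rwa [mem_ball, dist_eq_norm] at hw
      have h3 : ‖w‖ ≤ ‖w - m‖ + ‖m‖ := by
        have := norm_add_le (w - m) m
        rwa [sub_add_cancel] at this
      show ‖w‖ ≤ ‖m‖ + 1
      linarith
  exact h1.continuousOn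

theorem Mq_lip (hp : InL p0 p1 p2) (hq : OutL a q0 q1 q2) (hsh : shr MI MO = true) {R : ℝ}
    (hR : 1 ≤ R) : ∃ L : ℝ, 0 ≤ L ∧ ∀ m m' : ℂ, ‖m‖ ≤ R → ‖m'‖ ≤ R →
      ‖Mq M MI MO p0 p1 p2 q0 q1 q2 m - Mq M MI MO p0 p1 p2 q0 q1 q2 m'‖ ≤ L * ‖m - m'‖ :=
  glue hR (bl_in hp M MI) (bl_out hq M MO (zero_le_one.trans hR)) fun m hm => circ hsh m hm

end Mq

/-! ### the retraction -/

/-- retraction on the disc `|m + 3| ≤ r` -/
noncomputable def ret (r : ℝ) (m : ℂ) : ℂ := r * prj ((m + 3) / r) - 3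

theorem ret_eq {r : ℝ} (hr : 0 < r) {m : ℂ} (h : ‖m + 3‖ ≤ r) : ret r m = m := by
  have hr' : (r : ℂ) ≠ 0 := by exact_mod_cast hr.ne'
  unfold ret
  rw [prj_of_le, mul_div_cancel₀ _ hr']
  · ring
  · rw [norm_div, Complex.norm_real, Real.norm_eq_abs, abs_of_pos hr]
    exact (div_le_one hr).2 h

theorem ret_mem {r : ℝ} (hr : 0 < r) (m : ℂ) : ‖ret r m + 3‖ ≤ r := by
  unfold ret
  rw [sub_add_cancel, norm_mul, Complex.norm_real, Real.norm_eq_abs, abs_of_pos hr]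
  have := mul_le_mul_of_nonneg_left (norm_prj_le ((m + 3) / r)) hr.le
  rwa [mul_one] at this

theorem ret_lip {r : ℝ} (hr : 0 < r) (m m' : ℂ) : ‖ret r m - ret r m'‖ ≤ 2 * ‖m - m'‖ := by
  have hr' : (r : ℂ) ≠ 0 := by exact_mod_cast hr.ne'
  unfold ret
  have e : (r : ℂ) * prj ((m + 3) / r) - 3 - (r * prj ((m' + 3) / r) - 3) =
      r * (prj ((m + 3) / r) - prj ((m' + 3) / r)) := by ring
  rw [e, norm_mul, Complex.norm_real, Real.norm_eq_abs, abs_of_pos hr]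
  have h1 := prj_lip ((m + 3) / r) ((m' + 3) / r)
  have e2 : (m + 3) / (r : ℂ) - (m' + 3) / r = (m - m') / r := by
    field_simp
    ring
  rw [e2, norm_div, Complex.norm_real, Real.norm_eq_abs, abs_of_pos hr] at h1
  calc r * ‖prj ((m + 3) / r) - prj ((m' + 3) / r)‖ ≤ r * (2 * (‖m - m'‖ / r)) :=
        mul_le_mul_of_nonneg_left h1 hr.le
    _ = 2 * ‖m - m'‖ := by field_simp

/-- from the disc `|m + 3| ≤ 4 + ε` to the disc `|m + 3| ≤ 4` -/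
theorem near_pt {ε : ℝ} (hε : 0 ≤ ε) {m : ℂ} (h : ‖m + 3‖ ≤ 4 + ε) :
    ∃ p : ℂ, ‖p + 3‖ ≤ 4 ∧ ‖m - p‖ ≤ ε := by
  by_cases h4 : ‖m + 3‖ ≤ 4
  · exact ⟨m, h4, by simpa using hε⟩
  · have h5 : 4 < ‖m + 3‖ := not_le.1 h4
    have h0 : 0 < ‖m + 3‖ := by linarith
    refine ⟨((4 / ‖m + 3‖ : ℝ) : ℂ) * (m + 3) - 3, ?_, ?_⟩
    · rw [sub_add_cancel, norm_mul, Complex.norm_real, Real.norm_eq_abs,
        abs_of_pos (by positivity), div_mul_cancel₀ _ h0.ne']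
    · have e : m - (((4 / ‖m + 3‖ : ℝ) : ℂ) * (m + 3) - 3) =
          ((1 - 4 / ‖m + 3‖ : ℝ) : ℂ) * (m + 3) := by
        push_cast
        ring
      have h6 : 0 ≤ 1 - 4 / ‖m + 3‖ := by
        rw [sub_nonneg, div_le_one h0]
        exact h5.le
      rw [e, norm_mul, Complex.norm_real, Real.norm_eq_abs, abs_of_nonneg h6, sub_mul, one_mul,
        div_mul_cancel₀ _ h0.ne']
      linarith

/-- **the glue**: a continuous multiplier, Lipschitz on `|m| ≤ 8`, bounded by `b` on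
`|m + 3| ≤ 4` -/
theorem mOk_gen {F : ℂ → ℂ} (hc : Continuous F) {L : ℝ} (hL : 0 ≤ L)
    (hl : ∀ m m' : ℂ, ‖m‖ ≤ 8 → ‖m'‖ ≤ 8 → ‖F m - F m'‖ ≤ L * ‖m - m'‖) {b Mb : ℝ}
    (hb : ∀ m : ℂ, ‖m + 3‖ ≤ 4 → ‖F m‖ ≤ b) (hMb : b < Mb) :
    ∃ (M' : ℂ → ℂ) (L' ε : ℝ), 0 < ε ∧ MOk F M' Mb L' ε := by
  have d0 : 0 < Mb - b := sub_pos.2 hMb
  obtain ⟨ε, hε⟩ : ∃ ε : ℝ, ε = min 1 ((Mb - b) / (L + 1)) := ⟨_, rfl⟩
  have hε0 : 0 < ε := by
    rw [hε]
    exact lt_min one_pos (by positivity)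
  have hε1 : ε ≤ 1 := by rw [hε]; exact min_le_left _ _
  have hε2 : L * ε ≤ Mb - b := by
    have h1 : ε ≤ (Mb - b) / (L + 1) := by rw [hε]; exact min_le_right _ _
    rw [le_div_iff₀ (by positivity)] at h1
    nlinarith
  have hr : 0 < 4 + ε := by linarith
  have n8 : ∀ m : ℂ, ‖m + 3‖ ≤ 4 + ε → ‖m‖ ≤ 8 := fun m hm => by
    have h1 := norm_sub_le (m + 3) 3
    rw [add_sub_cancel_right, Complex.norm_ofNat] at h1
    linarith
  refine ⟨fun m => F (ret (4 + ε) m), L * 2, ε, hε0, hc, fun m hm => ?_, fun m => ?_,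
    fun m m' => ?_⟩
  · show F m = F (ret (4 + ε) m)
    rw [ret_eq hr hm]
  · have h1 := ret_mem hr m
    obtain ⟨p, hp, hp'⟩ := near_pt hε0.le h1
    have h2 := hl _ p (n8 _ h1) (n8 p (by linarith))
    have h3 := norm_sub_norm_le (F (ret (4 + ε) m)) (F p)
    have h4 := hb p hp
    have h5 : L * ‖ret (4 + ε) m - p‖ ≤ L * ε := mul_le_mul_of_nonneg_left hp' hL
    show ‖F (ret (4 + ε) m)‖ ≤ Mb
    linarith
  · have h2 := hl _ _ (n8 _ (ret_mem hr m)) (n8 _ (ret_mem hr m'))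
    have h3 := mul_le_mul_of_nonneg_left (ret_lip hr m m') hL
    show ‖F (ret (4 + ε) m) - F (ret (4 + ε) m')‖ ≤ L * 2 * ‖m - m'‖
    linarith

/-- **the multiplier of the data satisfies `MOk`** -/
theorem mOk_Mq {a p0 p1 p2 q0 q1 q2 : ℝ} (hp : InL p0 p1 p2) (hq : OutL a q0 q1 q2) {M : ℤ}
    {MI MO : List (ℕ × ℕ × ℤ)} (hsh : shr MI MO = true) {b Mb : ℝ}
    (hb : ∀ m : ℂ, ‖m + 3‖ ≤ 4 → ‖Mq M MI MO p0 p1 p2 q0 q1 q2 m‖ ≤ b) (hMb : b < Mb) :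
    ∃ (M' : ℂ → ℂ) (L' ε : ℝ), 0 < ε ∧ MOk (Mq M MI MO p0 p1 p2 q0 q1 q2) M' Mb L' ε := by
  obtain ⟨L, hL, hl⟩ := Mq_lip (M := M) hp hq hsh (R := 8) (by norm_num)
  exact mOk_gen (Mq_cont hp hq hsh) hL hl hb hMb

/-- the numbers of the bound check: resolutions, depths and degrees inside and outside, the bound
`Bn / Bd`, and the denominators of the two sides as integers -/
structure MChk where
  (k n N k' n' N' : ℕ)
  (Bn Bd r r0 r1 r2 s s0 s1 s2 : ℤ)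

/-- the Boolean check of the multiplier -/
def MChk.ok (c : MChk) (s : DatT) : Bool :=
  Nat.ble 1 c.k && Nat.ble 1 c.k' &&
  shr s.d.MI s.d.MO &&
  mchk true c.k c.n c.N 1 c.r c.r0 c.r1 c.r2 s.d.c.M c.Bn c.Bd (scl s.td s.d.MI) &&
  mchk false c.k' c.n' c.N' (-1) c.s c.s0 c.s1 c.s2 s.d.c.M c.Bn c.Bd (scl s.td s.d.MO)

/-- **`MOk` for the data** -/
theorem mOk_Mu {s : DatT} {a p0 p1 p2 q0 q1 q2 : ℝ} (hp : InL p0 p1 p2) (hq : OutL a q0 q1 q2)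
    (hM : 0 < s.d.c.M) (c : MChk) (hBn : 0 ≤ c.Bn) (hBd : 0 < c.Bd)
    (hr : ROk c.r c.r0 c.r1 c.r2 p0 p1 p2) (hr' : ROk c.s c.s0 c.s1 c.s2 q0 q1 q2)
    (hc : c.ok s = true) {Mb : ℝ} (hMb : (c.Bn : ℝ) / c.Bd < Mb) :
    ∃ (M' : ℂ → ℂ) (L' ε : ℝ), 0 < ε ∧ MOk (s.Mu p0 p1 p2 q0 q1 q2) M' Mb L' ε := by
  simp only [MChk.ok, Bool.and_eq_true, Nat.ble_eq] at hc
  obtain ⟨⟨⟨⟨h1, h2⟩, h3⟩, h4⟩, h5⟩ := hc
  have k1 : 0 < c.k := h1
  have k2 : 0 < c.k' := h2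
  exact mOk_Mq hp hq (shr_scl s.td h3)
    (fun m hm => Mq_le hp hq hr hr' k1 k2 hM hBn hBd h4 h5 hm) hMb

end Pool.Agent.Helper11.CK
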